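import Pool.Agent.Lib.MP_f9c574_lc.Main

/-!
Outer-fan-planarity of arbitrary graphs, given by adjacency lists, is decidable in polynomial time.
-/

namespace Pool.Agent.Results.MP_f9c574_lc.OuterInP

open Pool.Agent.Lib.MP_f9c574_lc N68a2faeb

theorem result : ∃ d : List (List ℕ) → Bool, IsPolyTime d ∧
    ∀ A, d A = true ↔ OuterFanPlanar (graphOf A) :=
  let ⟨d, h1, h2⟩ := drawable_pt
  ⟨d, h1, fun A => (h2 A).trans (outerFanPlanar_iff A)⟩

end Pool.Agent.Results.MP_f9c574_lc.OuterInP
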